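import Pool.Agent.H3.HB.Red

/-!
# The local two-point gap (MP_c59857_nt): from blocks to windows, abstract form
-/

set_option autoImplicit false

namespace Pool.Agent.H3.QP

open Finset Pool.Agent.H6.N4D Pool.Agent.H93 Pool.Agent.H93.ES Pool.Agent.H93.DE
  Pool.Agent.H6.G0 Pool.Agent.H28.NW
  Pool.Agent.H3.GW Pool.Agent.H3.HB

/-- from the blocks of integers to a window; `G j` is the functional of the level `j` -/
theorem blw (hU : W_BLU) {Cb C : ℝ} (hCb : 0 ≤ Cb) (hC : 0 ≤ C) (X : Wn) (K : ℕ) (m : ℕ → ℕ)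
    (G : ℕ → ℕ → ℝ) (hm : ∀ j, j + 1 < K → m j < m (j + 1))
    (h4 : ∀ j < K, (4 : ℝ) ^ m j ≤ X.L) (hL : 1 ≤ X.L)
    (hG : ∀ j < K, ∀ n, 0 ≤ G j n ∧ G j n ≤ Cb)
    (hB : ∀ N : ℕ, 1 ≤ N →
      (∀ j < K, primorial (2 ^ (m j / 200)) ∣ N ∧ 2 ^ (3 * m j) ∣ N) → ∀ i : ℕ, 1 ≤ i →
      ∑ j ∈ range K, (∑ k ∈ range N, G j (i * N + k)) / (N : ℝ) ≤ C) :
    ∑ j ∈ range K, wlg X (G j) ≤ (51 * Cb + 3 * C) * X.L := by
  rcases Nat.eq_zero_or_pos K with hK | hK
  · subst hK
    simp only [range_zero, sum_empty]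
    positivity
  set L : ℝ := X.L with hLd
  have hsqL : Real.sqrt L * Real.sqrt L = L := Real.mul_self_sqrt (by linarith)
  have hsq1 : 1 ≤ Real.sqrt L := Real.one_le_sqrt.2 hL
  have hsqle : Real.sqrt L ≤ L := by nlinarith
  -- the levels
  have hgrow : ∀ j < K, j ≤ m j := by
    intro j
    induction j with
    | zero => intro _; omega
    | succ j ih =>
      intro hj
      have h2 := ih (by omega)
      have h3 := hm j hj
      omega
  obtain ⟨M, hMd⟩ : ∃ M : ℕ, M = (range K).sup m := ⟨_, rfl⟩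
  have hmM : ∀ j < K, m j ≤ M := by
    intro j hj
    rw [hMd]
    exact Finset.le_sup (f := m) (mem_range.2 hj)
  have hML : (4 : ℝ) ^ M ≤ L := by
    obtain ⟨j, hj, hj2⟩ := Finset.exists_mem_eq_sup (range K) ⟨0, mem_range.2 hK⟩ m
    rw [hMd, hj2]
    exact h4 j (mem_range.1 hj)
  have hKM : K ≤ M + 1 := by
    have h2 := hgrow (K - 1) (by omega)
    have h3 := hmM (K - 1) (by omega)
    omega
  set N : ℕ := primorial (2 ^ (M / 200)) * 2 ^ (3 * M) with hN
  have hNpos : 0 < N := by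
    rw [hN]
    have := primorial_pos (2 ^ (M / 200))
    positivity
  have hNr : (0 : ℝ) < N := by exact_mod_cast hNpos
  have hdvd : ∀ j < K, primorial (2 ^ (m j / 200)) ∣ N ∧ 2 ^ (3 * m j) ∣ N := by
    intro j hj
    constructor
    · refine dvd_trans (primorial_dvd_primorial ?_) (Dvd.intro _ (by rw [hN]))
      exact Nat.pow_le_pow_right (by norm_num) (Nat.div_le_div_right (hmM j hj))
    · rw [hN]
      exact Dvd.dvd.mul_left (pow_dvd_pow 2 (by have := hmM j hj; omega)) _
  have hlogN : Real.log N ≤ 2 * 2 ^ (M / 200) + 3 * M := by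
    have h1 : (N : ℝ) = (primorial (2 ^ (M / 200)) : ℝ) * 2 ^ (3 * M) := by
      rw [hN]
      push_cast
      ring
    have hp : (0 : ℝ) < (primorial (2 ^ (M / 200)) : ℝ) := by
      exact_mod_cast primorial_pos _
    rw [h1, Real.log_mul hp.ne' (by positivity), Real.log_pow]
    have h2 : Real.log (primorial (2 ^ (M / 200)) : ℝ) ≤ 2 * 2 ^ (M / 200) := by
      have h3 : (primorial (2 ^ (M / 200)) : ℝ) ≤ 4 ^ (2 ^ (M / 200)) := by
        exact_mod_cast primorial_le_four_pow _
      refine (Real.log_le_log hp h3).trans ?_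
      rw [Real.log_pow]
      have h4 : Real.log 4 ≤ 2 := by
        have h5 : Real.log 4 = 2 * Real.log 2 := by
          rw [show (4 : ℝ) = 2 ^ 2 by norm_num, Real.log_pow]
          norm_num
        have := Real.log_two_lt_d9
        rw [h5]
        linarith
      push_cast
      have h6 : (0 : ℝ) < 2 ^ (M / 200) := by positivity
      nlinarith
    have h7 : ((3 * M : ℕ) : ℝ) * Real.log 2 ≤ 3 * M := by
      have := Real.log_two_lt_d9
      have h8 : (0 : ℝ) ≤ M := Nat.cast_nonneg M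
      push_cast
      nlinarith
    linarith
  have hsize := size_facts (M := M) (l := 0) le_rfl hML
  have hM0 : (0 : ℝ) ≤ M := Nat.cast_nonneg M
  have hlogN0 : 0 ≤ Real.log N := Real.log_natCast_nonneg N
  have hKlog : ((M : ℝ) + 1) * (1 + Real.log N) ≤ 17 * Real.sqrt L := by
    have h1 : (17 + 0) * Real.sqrt L = 17 * Real.sqrt L := by ring
    rw [h1] at hsize
    refine le_trans ?_ hsize
    exact mul_le_mul_of_nonneg_left (by linarith) (by positivity)
  have hharm := harm N X hNpos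
  rw [← hLd] at hharm
  calc ∑ j ∈ range K, wlg X (G j)
      ≤ ∑ j ∈ range K, (3 * Cb * (1 + Real.log N) +
        ∑ i ∈ Icc (max 1 (X.lo / N)) (X.hi / N - 1), 1 / (i : ℝ) *
          ((∑ k ∈ range N, G j (i * N + k)) / (N : ℝ))) := by
        refine sum_le_sum fun j hj => ?_
        exact hU X N (G j) Cb hNpos hL hCb (hG j (mem_range.1 hj))
    _ = K * (3 * Cb * (1 + Real.log N)) +
        ∑ i ∈ Icc (max 1 (X.lo / N)) (X.hi / N - 1), 1 / (i : ℝ) *
          (∑ j ∈ range K, (∑ k ∈ range N, G j (i * N + k)) / (N : ℝ)) := by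
        rw [sum_add_distrib, sum_const, card_range, nsmul_eq_mul, sum_comm]
        congr 1
        refine sum_congr rfl fun i _ => ?_
        rw [mul_sum]
    _ ≤ 51 * Cb * L + ∑ i ∈ Icc (max 1 (X.lo / N)) (X.hi / N - 1), 1 / (i : ℝ) * C := by
        apply add_le_add
        · have h3 : (K : ℝ) ≤ (M : ℝ) + 1 := by exact_mod_cast hKM
          calc (K : ℝ) * (3 * Cb * (1 + Real.log N))
              ≤ ((M : ℝ) + 1) * (3 * Cb * (1 + Real.log N)) := by gcongr
            _ = 3 * Cb * (((M : ℝ) + 1) * (1 + Real.log N)) := by ring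
            _ ≤ 3 * Cb * (17 * Real.sqrt L) := by gcongr
            _ = 51 * Cb * Real.sqrt L := by ring
            _ ≤ 51 * Cb * L := by gcongr
        · refine sum_le_sum fun i hi => ?_
          rw [mem_Icc] at hi
          exact mul_le_mul_of_nonneg_left
            (hB N hNpos hdvd i ((le_max_left _ _).trans hi.1)) (by positivity)
    _ ≤ 51 * Cb * L + C * (2 + L) := by
        rw [← sum_mul, mul_comm _ C]
        gcongr
    _ ≤ _ := by nlinarith

/-- a functional of the windows of the cyclic group bounds a functional of the windows of a block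
of integers -/
theorem cyc {N : ℕ} [NeZero N] {Cb : ℝ} (hCb : 0 ≤ Cb) (W : ℕ) (i : ℕ) (G : ℕ → ℝ)
    (g : ZMod N → ℝ) (hg : ∀ n, 0 ≤ g n) (hG : ∀ n, G n ≤ Cb)
    (h : ∀ n : ZMod N, n.val + W ≤ N → G (i * N + n.val) ≤ g n) :
    (∑ k ∈ range N, G (i * N + k)) / (N : ℝ) ≤ avZ g + Cb * (W / (N : ℝ)) := by
  have hNr : (0 : ℝ) < N := by exact_mod_cast NeZero.pos N
  have h1 : ∑ k ∈ range N, G (i * N + k) ≤
      ∑ k ∈ range N, (g (k : ZMod N) + (if N < k + W then Cb else 0)) := by
    refine sum_le_sum fun k hk => ?_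
    rw [mem_range] at hk
    have hv : ((k : ZMod N)).val = k := ZMod.val_cast_of_lt hk
    by_cases hkW : N < k + W
    · rw [if_pos hkW]
      have := hg (k : ZMod N)
      have := hG (i * N + k)
      linarith
    · rw [if_neg hkW, add_zero]
      have h2 := h (k : ZMod N) (by rw [hv]; omega)
      rwa [hv] at h2
  have h2 : ∑ k ∈ range N, g (k : ZMod N) = ∑ n : ZMod N, g n := by
    have h3 : ∀ M, M = N → ∑ n : ZMod N, g n = ∑ n : ZMod N, (fun k : ℕ => g (k : ZMod N)) n.val := by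
      intro M _
      refine sum_congr rfl fun n _ => ?_
      simp only [ZMod.natCast_val, ZMod.cast_id', id_eq]
    rw [h3 N rfl]
    obtain ⟨M, rfl⟩ : ∃ M, N = M + 1 := ⟨N - 1, by have := NeZero.pos N; omega⟩
    exact (Fin.sum_univ_eq_sum_range (fun k : ℕ => g (k : ZMod (M + 1))) (M + 1)).symm
  have h3 : ∑ k ∈ range N, (if N < k + W then Cb else 0) ≤ Cb * W := by
    rw [← sum_filter, sum_const, nsmul_eq_mul, mul_comm]
    apply mul_le_mul_of_nonneg_left _ hCb
    have h4 : (range N).filter (fun k => N < k + W) ⊆ Ico (N - W) N := by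
      intro k hk
      rw [mem_filter, mem_range] at hk
      rw [mem_Ico]
      omega
    have h5 := card_le_card h4
    rw [Nat.card_Ico] at h5
    exact_mod_cast h5.trans (by omega)
  rw [sum_add_distrib, h2] at h1
  unfold avZ
  rw [div_le_iff₀ hNr]
  have h7 : ((∑ n : ZMod N, g n) / (N : ℝ) + Cb * (W / (N : ℝ))) * N =
      ∑ n : ZMod N, g n + Cb * W := by
    field_simp
  rw [h7]
  linarith

end Pool.Agent.H3.QP
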