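import Pool.Agent.H3.QP.Abs
import Pool.Agent.H87.QP.Targets
import Pool.Agent.H40.ES.BK

/-!
# Local autocorrelations of Liouville's function (MP_c59857_nt), rows EBH and GLV
-/

set_option autoImplicit false

namespace Pool.Agent.H3.QP

open Finset Pool.Agent.H6.N4D Pool.Agent.H93 Pool.Agent.H93.ES Pool.Agent.H93.DE
  Pool.Agent.H28.NW Pool.Agent.H87.QP

lemma tq_le {lam : ℕ → ℝ} (hl : ∀ n, 1 ≤ n → lam n = 1 ∨ lam n = -1) {q T : ℕ} (h n : ℕ)
    (hq : 1 ≤ q) (hqT : q ≤ T) : |tq lam q T h n| ≤ 3 := by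
  unfold tq
  have hT : (0 : ℝ) < T := by
    have : 0 < T := by omega
    exact_mod_cast this
  have hab : ∀ m, 1 ≤ m → |lam m| = 1 := by
    intro m hm
    rcases hl m hm with h | h <;> rw [h] <;> norm_num
  rw [abs_div, abs_of_pos hT, div_le_iff₀ hT]
  refine (abs_sum_le_sum_abs _ _).trans ((sum_le_sum fun m hm => ?_).trans
    (Pool.Agent.H40.ES.D_sum q n T hq hqT))
  have h2 := (mem_Ioc.1 hm).1
  rw [abs_mul, abs_mul, hab m (by omega), hab (m + q * h) (by omega), one_mul, one_mul]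

lemma fsum_le {lam : ℕ → ℝ} (hl : ∀ n, 1 ≤ n → lam n = 1 ∨ lam n = -1) {W : ℝ}
    (hW : ∀ w : ℕ, ∑ q ∈ EB.QQ w, 1 / (q : ℝ) ≤ W) (w h n : ℕ) :
    0 ≤ ∑ q ∈ EB.QQ w, 1 / (q : ℝ) * tq lam q (2 ^ w) h n ^ 2 ∧
      ∑ q ∈ EB.QQ w, 1 / (q : ℝ) * tq lam q (2 ^ w) h n ^ 2 ≤ 9 * W := by
  constructor
  · exact sum_nonneg fun q _ => by positivity
  · calc ∑ q ∈ EB.QQ w, 1 / (q : ℝ) * tq lam q (2 ^ w) h n ^ 2
        ≤ ∑ q ∈ EB.QQ w, 9 * (1 / (q : ℝ)) := by
          refine sum_le_sum fun q hq => ?_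
          obtain ⟨h1, h2, _⟩ := Pool.Agent.H40.ES.QQ_facts hq
          have h3 := tq_le hl h n h1 h2
          have h4 : tq lam q (2 ^ w) h n ^ 2 ≤ 9 := by
            have h5 := sq_abs (tq lam q (2 ^ w) h n)
            rw [← h5]
            nlinarith [abs_nonneg (tq lam q (2 ^ w) h n)]
          rw [mul_comm (9 : ℝ)]
          exact mul_le_mul_of_nonneg_left h4 (by positivity)
      _ = 9 * ∑ q ∈ EB.QQ w, 1 / (q : ℝ) := by rw [mul_sum]
      _ ≤ 9 * W := by linarith [hW w]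

theorem pf_EBH (hB : T_BKH) (hU : W_BLU) (hQ : T_QSU) : T_EBH := by
  intro h
  obtain ⟨C, w₀, hC, hB⟩ := hB h
  obtain ⟨W, hW0, hW⟩ := hQ
  refine ⟨51 * (9 * W) + 3 * (3 * C), w₀ + 1, by positivity, ?_⟩
  intro K w hw0 hw
  refine ⟨4 ^ ((range K).sup w) + 1, ?_⟩
  intro X lam hX hl
  have hinc : ∀ j < K, j < w j := by
    intro j
    induction j with
    | zero => intro _; omega
    | succ j ih =>
      intro hj
      have h2 := ih (by omega)
      have h3 := hw j hj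
      omega
  have h4le : ∀ j < K, (4 : ℝ) ^ w j ≤ X.L := by
    intro j hj
    have h1 : w j ≤ (range K).sup w := Finset.le_sup (f := w) (mem_range.2 hj)
    have h2 : (4 : ℝ) ^ w j ≤ 4 ^ ((range K).sup w) := pow_le_pow_right₀ (by norm_num) h1
    linarith
  have hL1 : 1 ≤ X.L := by
    have : (0 : ℝ) < 4 ^ ((range K).sup w) := by positivity
    linarith
  refine blw hU (by positivity) (by positivity) X K w
    (fun j n => ∑ q ∈ EB.QQ (w j), 1 / (q : ℝ) * tq lam q (2 ^ w j) h n ^ 2) ?_ h4le hL1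
    (fun j _ n => fsum_le hl hW (w j) h n) ?_
  · intro j hj
    have h1 := hw j hj
    have h2 := hinc j (by omega)
    omega
  · intro N hN hdvd i hi
    have : NeZero N := ⟨by omega⟩
    have h1 := hB N K i lam w hi hl (by omega) hw fun j hj => (hdvd j hj).1
    refine h1.trans ?_
    have hNr : (0 : ℝ) < N := by exact_mod_cast hN
    have h2 : (∑ j ∈ range K, (2 : ℝ) ^ w j) / (N : ℝ) ≤ 2 := by
      rw [sum_div]
      calc ∑ j ∈ range K, (2 : ℝ) ^ w j / (N : ℝ) ≤ ∑ j ∈ range K, ((1 : ℝ) / 2) ^ j := by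
            refine sum_le_sum fun j hj => ?_
            rw [mem_range] at hj
            have h3 : 2 ^ (3 * w j) ≤ N := Nat.le_of_dvd hN (hdvd j hj).2
            have h4 : (2 : ℝ) ^ (3 * w j) ≤ N := by exact_mod_cast h3
            have h5 := hinc j hj
            rw [div_le_iff₀ hNr]
            calc (2 : ℝ) ^ w j ≤ (1 / 2) ^ j * 2 ^ (3 * w j) := by
                  rw [one_div, inv_pow, inv_mul_eq_div, le_div_iff₀ (by positivity), ← pow_add]
                  exact pow_le_pow_right₀ (by norm_num) (by omega)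
              _ ≤ _ := mul_le_mul_of_nonneg_left h4 (by positivity)
        _ ≤ ∑' j : ℕ, ((1 : ℝ) / 2) ^ j :=
            (summable_geometric_two).sum_le_tsum _ fun j _ => by positivity
        _ = 2 := tsum_geometric_two
    calc C * (1 + (∑ j ∈ range K, (2 : ℝ) ^ w j) / (N : ℝ)) ≤ C * (1 + 2) := by gcongr
      _ = _ := by ring

theorem pf_GLV (hE : T_EBH) : T_GLV := by
  intro H W₀ ε hε
  choose C w₀ hC hE using hE
  set Cs : ℝ := ∑ h ∈ Icc 1 H, C h with hCs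
  have hCs0 : 0 ≤ Cs := sum_nonneg fun h _ => (hC h).le
  obtain ⟨K, hK⟩ := exists_nat_gt (Cs / ε)
  set V : ℕ := max W₀ ((Icc 1 H).sup w₀) + 1 with hV
  set w : ℕ → ℕ := fun j => V * 400 ^ j with hw
  have hww : ∀ j, j + 1 < K → 400 * w j ≤ w (j + 1) := by
    intro j _
    rw [hw]
    simp only
    rw [pow_succ]
    apply le_of_eq
    ring
  have hV0 : ∀ h ∈ Icc 1 H, w₀ h ≤ w 0 := by
    intro h hh
    have h1 : w₀ h ≤ (Icc 1 H).sup w₀ := Finset.le_sup (f := w₀) hh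
    have h2 : w 0 = V := by rw [hw]; simp
    rw [h2, hV]
    omega
  have hex : ∀ h, ∃ X₀ : ℝ, h ∈ Icc 1 H → ∀ (X : Wn) (lam : ℕ → ℝ), X₀ ≤ X.L →
      (∀ n, 1 ≤ n → lam n = 1 ∨ lam n = -1) →
      ∑ j ∈ range K, wlg X (fun n => ∑ q ∈ EB.QQ (w j), 1 / (q : ℝ) *
        tq lam q (2 ^ w j) h n ^ 2) ≤ C h * X.L := by
    intro h
    by_cases hh : h ∈ Icc 1 H
    · obtain ⟨X₀, hX⟩ := hE h K w (hV0 h hh) hww
      exact ⟨X₀, fun _ => hX⟩
    · exact ⟨0, fun h' => absurd h' hh⟩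
  choose X₀ hX using hex
  refine ⟨V * 400 ^ K, ∑ h ∈ Icc 1 H, |X₀ h|, ?_⟩
  intro X lam hXL hl
  have h1 : ∑ j ∈ range K, ∑ h ∈ Icc 1 H, wlg X (fun n => ∑ q ∈ EB.QQ (w j), 1 / (q : ℝ) *
      tq lam q (2 ^ w j) h n ^ 2) ≤ Cs * X.L := by
    rw [sum_comm, hCs, sum_mul]
    refine sum_le_sum fun h hh => ?_
    refine hX h hh X lam ?_ hl
    refine le_trans ?_ hXL
    exact (le_abs_self _).trans (single_le_sum (f := fun h => |X₀ h|)
      (fun i _ => abs_nonneg _) hh)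
  have hKpos : 0 < K := by
    have h2 : (0 : ℝ) ≤ Cs / ε := by positivity
    have h3 : (0 : ℝ) < K := lt_of_le_of_lt h2 hK
    exact_mod_cast h3
  have hLn : 0 ≤ X.L := X.L_nonneg
  by_contra hcon
  push Not at hcon
  have h2 : ∀ j ∈ range K, ε * X.L < ∑ h ∈ Icc 1 H, wlg X (fun n => ∑ q ∈ EB.QQ (w j),
      1 / (q : ℝ) * tq lam q (2 ^ w j) h n ^ 2) := by
    intro j hj
    rw [mem_range] at hj
    apply hcon (w j)
    · rw [hw]
      simp only
      have h3 : 1 ≤ 400 ^ j := Nat.one_le_pow _ _ (by norm_num)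
      have h4 : W₀ ≤ V := by rw [hV]; omega
      nlinarith
    · rw [hw]
      simp only
      exact Nat.mul_le_mul_left _ (Nat.pow_le_pow_right (by norm_num) hj.le)
  have h3 := sum_lt_sum_of_nonempty ⟨0, mem_range.2 hKpos⟩ h2
  rw [sum_const, card_range, nsmul_eq_mul] at h3
  rw [div_lt_iff₀ hε] at hK
  have h4 : Cs * X.L ≤ (K : ℝ) * (ε * X.L) := by
    rw [← mul_assoc]
    exact mul_le_mul_of_nonneg_right hK.le hLn
  linarith

end Pool.Agent.H3.QP
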